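import Mathlib
import Pool.Agent.T2h79.EP.Count

/-!
# Bounds for the Satake parameters at almost all places, `GL_n`, `n ≥ 4`

Let `Π` be a unitary cuspidal automorphic representation of `GL_n` over a number field `K` (such a `Π` is globally
generic), unramified outside the finite set `S` of finite places, with Satake parameters `α_{i,v}`, `v ∉ S`; for
instance the functorial lift of a globally generic cuspidal representation of a classical group over `K`, if this lift
is cuspidal. Put `θ_v = max_i |log_{q_v} |α_{i,v}||`, so that Ramanujan says `θ_v = 0`. The best bound for all `v` is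
`θ_v ≤ 1/2 - 1/(n² + 1)` for `n ≥ 5` (Luo, Rudnick, Sarnak). We show: for all `0 < θ < 1/2` and `ε > 0`

  `#{v ∉ S : q_v ≤ x, θ_v ≥ θ} ≪ x^{max (1 - 2θ, ⌊n/2⌋ (1 - 1/(n² [K : ℚ] + 1) - 2θ)) + ε}`.

For `n ≥ 4` the exponent is smaller than one if
`θ > 1/2 - 1/(2 ⌊n/2⌋) - 1/(2 (n² [K : ℚ] + 1))`; so the bound `θ_v < θ` with any such `θ` holds for all places outside
a set of density zero, with a power saving. With the convergence of the Rankin-Selberg series alone in place of
Hypothesis H the term `1/(n² [K : ℚ] + 1)` is missing here and above.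

The structure `CuspTwists` lists what is used of the twisted Rankin-Selberg `L`-functions `L(s, Π × Π~ × χ)`, and
`UnitaryLocal` says that the multiset of the `α_{i,v}` is stable under `z ↦ 1 / conj z`, since `Π_v` is unitary.

The proof. By Newton's identities and the symmetry `z ↦ 1 / conj z`, the largest `|α_{i,v}|` is at most twice the
maximum of one and the `|∑_i α_{i,v}^j|^{1/j}`, `1 ≤ j ≤ ⌊n/2⌋`. For `j = 1` the squares of these power sums are
controlled by the Rankin-Selberg series and for `j ≥ 2` by the strong form of Hypothesis H, the convergence of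
`∑_v |∑_i α_{i,v}^j|² q_v^{-js}` for `s > 1 - 1/(n² [K : ℚ] + 1)`.
-/

set_option autoImplicit false

namespace Pool.Agent.Results.MP_08cfa9_nt.ExceptionalPlaces

open NumberField IsDedekindDomain Module
open Pool.Agent.TH861.GL3 (PL qq)
open Pool.Agent.T2h79.HH Pool.Agent.T2h79.EP

/-- **Bounds for the Satake parameters at almost all places.** -/
theorem result (K : Type) [Field K] [NumberField K] (n : ℕ) (S : Finset (HeightOneSpectrum (𝓞 K)))
    (α : PL S → Fin n → ℂ) (β : HeightOneSpectrum (𝓞 K) → Fin (n ^ 2) → ℂ)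
    (κ : Fin 2 → Fin (n ^ 2 * finrank ℚ K) → ℂ) (Q : ℝ) (B : ℕ) (h : CuspTwists α β κ Q B) (hu : UnitaryLocal α)
    (θ ε : ℝ) (hθ : 0 < θ) (hθ2 : θ < 1 / 2) (hε : 0 < ε) :
    ∃ C : ℝ, 0 < C ∧ ∀ x : ℝ, 1 ≤ x →
      {v : PL S | (qq v.1 : ℝ) ≤ x ∧ ∃ i, θ ≤ |Real.logb (qq v.1) ‖α v i‖|}.Finite ∧
      ({v : PL S | (qq v.1 : ℝ) ≤ x ∧ ∃ i, θ ≤ |Real.logb (qq v.1) ‖α v i‖|}.ncard : ℝ) ≤
        C * x ^ (max (1 - 2 * θ)
          (((n / 2 : ℕ) : ℝ) * (1 - 1 / ((n : ℝ) ^ 2 * finrank ℚ K + 1) - 2 * θ)) + ε) :=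
  main h hu hθ hθ2 hε

end Pool.Agent.Results.MP_08cfa9_nt.ExceptionalPlaces
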